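import Pool.Agent.H.MP_92077f_co.Main

namespace Pool.Agent.Results.MP_92077f_co.NotMonotone

open Pool.Agent.H.MP_92077f_co

theorem result : ∃ (W : Type) (_ : Fintype W) (_ : Nonempty W) (H : SimpleGraph W) (a b : ℕ),
    IsUpper H 3 a ∧ IsUpper H 4 b ∧ b < a := by
  obtain ⟨a, ha⟩ := exists_upper G 3
  obtain ⟨b, hb⟩ := exists_upper G 4
  refine ⟨V, inferInstance, ⟨.inl none⟩, G, a, b, ha, hb, ?_⟩
  obtain ⟨h, H, rfl⟩ := hb.1
  have h1 := upper H
  have h2 := ha.2 ⟨g, g_min, rfl⟩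
  have h3 := total g
  have h4 := hKg
  omega

end Pool.Agent.Results.MP_92077f_co.NotMonotone
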